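import Mathlib

/-!
# A cut which contains at least half of the edges at every vertex
-/

set_option autoImplicit false

namespace Pool.Agent.H136TC

open Finset

open Classical in
/-- Every finite graph has a partition of the vertices into two sets such that at most half of the
neighbours of each vertex are in its own set. -/
theorem maxcut {V : Type} [Fintype V] (K : SimpleGraph V) :
    ∃ X : V → Bool, ∀ v, 2 * (univ.filter (fun w => K.Adj v w ∧ X v = X w)).card ≤
      (univ.filter (fun w => K.Adj v w)).card := by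
  set φ : (V → Bool) → V → V → ℕ := fun Y a b => if K.Adj a b ∧ Y a = Y b then 1 else 0 with hφ
  obtain ⟨X, -, hX⟩ := Finset.exists_min_image (univ : Finset (V → Bool))
    (fun Y => ∑ a, ∑ b, φ Y a b) ⟨fun _ => true, mem_univ _⟩
  refine ⟨X, fun v => ?_⟩
  set X' : V → Bool := Function.update X v (!X v) with hX'
  have hX'v : X' v = !X v := by rw [hX', Function.update_self]
  have hX'o : ∀ w, w ≠ v → X' w = X w := fun w hw => by
    rw [hX', Function.update_of_ne hw]
  have key : ∀ Y : V → Bool, ∑ a, ∑ b, φ Y a b =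
      2 * ∑ b, φ Y v b + ∑ a ∈ univ.erase v, ∑ b ∈ univ.erase v, φ Y a b := by
    intro Y
    have hvv : φ Y v v = 0 := by simp [hφ]
    have e1 : ∑ a, ∑ b, φ Y a b = ∑ b, φ Y v b + ∑ a ∈ univ.erase v, ∑ b, φ Y a b :=
      (Finset.add_sum_erase univ (fun a => ∑ b, φ Y a b) (mem_univ v)).symm
    have e2 : ∑ a ∈ univ.erase v, ∑ b, φ Y a b =
        ∑ a ∈ univ.erase v, (φ Y a v + ∑ b ∈ univ.erase v, φ Y a b) := by
      refine Finset.sum_congr rfl fun a _ => ?_
      exact (Finset.add_sum_erase univ (fun b => φ Y a b) (mem_univ v)).symm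
    have e3 : ∑ a ∈ univ.erase v, φ Y a v = ∑ b, φ Y v b := by
      rw [← Finset.add_sum_erase univ (fun b => φ Y v b) (mem_univ v), hvv, zero_add]
      refine Finset.sum_congr rfl fun a _ => ?_
      simp only [hφ, K.adj_comm a v, eq_comm (a := Y a) (b := Y v)]
    rw [e1, e2, Finset.sum_add_distrib, e3]
    ring
  have h := hX X' (mem_univ _)
  simp only [key] at h
  have hR : ∑ a ∈ univ.erase v, ∑ b ∈ univ.erase v, φ X' a b =
      ∑ a ∈ univ.erase v, ∑ b ∈ univ.erase v, φ X a b := by
    refine Finset.sum_congr rfl fun a ha => Finset.sum_congr rfl fun b hb => ?_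
    simp only [hφ, hX'o a (ne_of_mem_erase ha), hX'o b (ne_of_mem_erase hb)]
  rw [hR] at h
  have hle : ∑ b, φ X v b ≤ ∑ b, φ X' v b := by omega
  have hs : ∑ b, φ X v b + ∑ b, φ X' v b = (univ.filter (fun w => K.Adj v w)).card := by
    rw [← Finset.sum_add_distrib, Finset.card_filter]
    refine Finset.sum_congr rfl fun b _ => ?_
    by_cases hb : b = v
    · subst hb
      simp [hφ]
    · simp only [hφ, hX'v, hX'o b hb]
      by_cases hadj : K.Adj v b
      · cases hXv : X v <;> cases hXb : X b <;> simp [hadj]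
      · simp [hadj]
  have hc : (univ.filter (fun w => K.Adj v w ∧ X v = X w)).card = ∑ b, φ X v b := by
    rw [Finset.card_filter]
  rw [hc]
  omega

end Pool.Agent.H136TC
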