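import Pool.Agent.H439.TB.Main
import Pool.Agent.TH559.LE.Trans
import Pool.Agent.H136TC.Cut

/-!
# Total colourings that extend a precoloured induced matching, for all graphs
-/

set_option autoImplicit false

namespace Pool.Agent.H136TC

open Finset Pool.Agent.TH559.LE Pool.Agent.R61.TotExt Pool.Agent.H439.TB

/-- A criterion: `F` is a set of edges outside `H` such that the other edges outside `H` form a
bipartite graph. -/
theorem crit {V : Type} [Fintype V] (G H F : SimpleGraph V) (X : V → Prop)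
    (hmatch : ∀ u v w, H.Adj u v → H.Adj u w → v = w)
    (hind : ∀ u v, G.Adj u v → (∃ x, H.Adj u x) → (∃ y, H.Adj v y) → H.Adj u v)
    (hF : F ≤ G \ H)
    (hX : ∀ u v, (G \ H).Adj u v → ¬ F.Adj u v → (X u ↔ ¬ X v))
    (LV : V → Finset ℕ) (LE : Sym2 V → Finset ℕ) (hLV : ∀ v, dg G v < (LV v).card)
    (hLF : ∀ u v, F.Adj u v → dg F u + dg F v + 2 ≤ (LE s(u, v)).card)
    (hLB : ∀ u v, (G \ H).Adj u v → ¬ F.Adj u v →
      dg (G \ H) u + dg F v + 2 ≤ (LE s(u, v)).card ∧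
      (((∃ x, H.Adj u x) ∨ (∃ x, H.Adj v x)) → dg (G \ H) u + dg F v + 3 ≤ (LE s(u, v)).card))
    (f0 : V → ℕ) (g0 : Sym2 V → ℕ) (h0 : IsTot H f0 g0) :
    ∃ (f : V → ℕ) (g : Sym2 V → ℕ), IsTot G f g ∧
      (∀ u v, H.Adj u v → f u = f0 u ∧ g s(u, v) = g0 s(u, v)) ∧
      (∀ v, (∀ w, ¬ H.Adj v w) → f v ∈ LV v) ∧
      ∀ u v, G.Adj u v → ¬ H.Adj u v → g s(u, v) ∈ LE s(u, v) := by
  obtain ⟨f, hfD, hfL, hfG⟩ := vextL G LV f0 (fun v => ∃ x, H.Adj v x)
    (fun u v hu hv huv => h0.1 u v (hind u v huv hu hv)) hLV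
  obtain ⟨g, hg1, hg2, hg3⟩ := coreL G H hmatch LE f0 g0 h0 f hfD hfG (by
    intro L hL
    -- an edge outside `H` with two uncovered ends
    have hL0 : ∀ u v, (G \ H).Adj u v → (¬ ∃ x, H.Adj u x) → (¬ ∃ x, H.Adj v x) →
        (LE s(u, v)).card ≤ (L s(u, v)).card + 2 := by
      intro u v huv hu hv
      have h1 : LE s(u, v) \ {f u, f v} ⊆ L s(u, v) := by
        intro γ hγ
        simp only [mem_sdiff, mem_insert, mem_singleton, not_or] at hγ
        exact (hL u v huv γ).2 ⟨hγ.1, hγ.2.1, hγ.2.2, fun x hx => absurd ⟨x, hx⟩ hu,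
          fun x hx => absurd ⟨x, hx⟩ hv⟩
      have h2 := card_le_card h1
      have h3 := Finset.card_le_card_sdiff_add_card (s := LE s(u, v)) (t := {f u, f v})
      have h4 : ({f u, f v} : Finset ℕ).card ≤ 2 := card_le_two
      omega
    -- an edge outside `H` with one covered end
    have hL1 : ∀ u v, (G \ H).Adj u v → (∃ x, H.Adj v x) →
        (LE s(u, v)).card ≤ (L s(u, v)).card + 3 := by
      rintro u v huv ⟨z, hvz⟩
      have hu : ¬ ∃ x, H.Adj u x := fun hu => huv.2 (hind u v huv.1 hu ⟨z, hvz⟩)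
      have h1 : LE s(u, v) \ {f v, f u, g0 s(v, z)} ⊆ L s(u, v) := by
        intro γ hγ
        simp only [mem_sdiff, mem_insert, mem_singleton, not_or] at hγ
        refine (hL u v huv γ).2 ⟨hγ.1, hγ.2.2.1, hγ.2.1, fun x hx => absurd ⟨x, hx⟩ hu, ?_⟩
        intro x hx
        rw [hmatch v x z hx hvz]
        exact hγ.2.2.2
      have h2 := card_le_card h1
      have h3 := Finset.card_le_card_sdiff_add_card (s := LE s(u, v))
        (t := {f v, f u, g0 s(v, z)})
      have h4 : ({f v, f u, g0 s(v, z)} : Finset ℕ).card ≤ 3 := card_le_three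
      omega
    have hL3 : ∀ u v, (G \ H).Adj u v → (LE s(u, v)).card ≤ (L s(u, v)).card + 3 := by
      intro u v huv
      by_cases hv : ∃ x, H.Adj v x
      · exact hL1 u v huv hv
      · by_cases hu : ∃ x, H.Adj u x
        · have := hL1 v u huv.symm hu
          rwa [Sym2.eq_swap] at this
        · have := hL0 u v huv hu hv
          omega
    obtain ⟨c, hc⟩ := greedy F ⊥ bot_le L ⟨fun _ => 0, fun u v h => absurd h (by simp),
      fun u v w h => absurd h (by simp)⟩ (fun u v huv _ => by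
        have h5 := hL3 u v (hF huv)
        have h6 := hLF u v huv
        omega)
    refine ext F (G \ H) hF X hX L ?_ c hc
    intro u v huv hn
    obtain ⟨h7, h8⟩ := hLB u v huv hn
    by_cases hcov : (∃ x, H.Adj u x) ∨ (∃ x, H.Adj v x)
    · have h9 := h8 hcov
      have h10 := hL3 u v huv
      omega
    · push Not at hcov
      have h10 := hL0 u v huv (by push Not; exact hcov.1) (by push Not; exact hcov.2)
      omega)
  exact ⟨f, g, hg1, fun u v huv => ⟨hfD u ⟨v, huv⟩, hg2 u v huv⟩,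
    fun v hv => hfL v (fun ⟨x, hx⟩ => hv x hx), hg3⟩

/-- Every vertex is on at most `s` edges outside the bipartite graph `B`. -/
theorem near {V : Type} [Fintype V] (G H B : SimpleGraph V) (X : V → Prop) (Δ s : ℕ)
    (hΔ : ∀ v, dg G v ≤ Δ) (hHG : H ≤ G)
    (hmatch : ∀ u v w, H.Adj u v → H.Adj u w → v = w)
    (hind : ∀ u v, G.Adj u v → (∃ x, H.Adj u x) → (∃ y, H.Adj v y) → H.Adj u v)
    (hB : B ≤ G \ H) (hX : ∀ u v, B.Adj u v → (X u ↔ ¬ X v))
    (hs : ∀ v, dg (G \ B) v ≤ s)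
    (LV : V → Finset ℕ) (LE : Sym2 V → Finset ℕ) (hLV : ∀ v, Δ < (LV v).card)
    (hLE : ∀ u v, G.Adj u v → Δ + s + 2 ≤ (LE s(u, v)).card)
    (f0 : V → ℕ) (g0 : Sym2 V → ℕ) (h0 : IsTot H f0 g0) :
    ∃ (f : V → ℕ) (g : Sym2 V → ℕ), IsTot G f g ∧
      (∀ u v, H.Adj u v → f u = f0 u ∧ g s(u, v) = g0 s(u, v)) ∧
      (∀ v, (∀ w, ¬ H.Adj v w) → f v ∈ LV v) ∧
      ∀ u v, G.Adj u v → ¬ H.Adj u v → g s(u, v) ∈ LE s(u, v) := by
  have hFle : (G \ H) \ B ≤ G \ B := fun u v h => ⟨h.1.1, h.2⟩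
  have hFs : ∀ v, dg ((G \ H) \ B) v ≤ s := fun v => (dg_mono hFle v).trans (hs v)
  have hsΔ : ∀ v, dg ((G \ H) \ B) v ≤ Δ := fun v =>
    (dg_mono (sdiff_le.trans sdiff_le) v).trans (hΔ v)
  have hcovF : ∀ v, (∃ x, H.Adj v x) → dg ((G \ H) \ B) v + 1 ≤ s := by
    rintro v ⟨x, hx⟩
    have h1 : dg ((G \ H) \ B) v < dg (G \ B) v :=
      dg_lt hFle (v := x) ⟨hHG hx, fun h => (hB h).2 hx⟩ (fun h => h.1.2 hx)
    have := hs v
    omega
  have hcovG : ∀ v, (∃ x, H.Adj v x) → dg (G \ H) v + 1 ≤ Δ := by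
    rintro v ⟨x, hx⟩
    have h1 : dg (G \ H) v < dg G v := dg_lt sdiff_le (v := x) (hHG hx) (fun h => h.2 hx)
    have := hΔ v
    omega
  refine crit G H ((G \ H) \ B) X hmatch hind sdiff_le ?_ LV LE
    (fun v => lt_of_le_of_lt (hΔ v) (hLV v)) ?_ ?_ f0 g0 h0
  · intro u v huv hn
    have : B.Adj u v := by
      by_contra hB'
      exact hn ⟨huv, hB'⟩
    exact hX u v this
  · intro u v huv
    have h1 := hLE u v huv.1.1
    have h2 := hFs u
    have h3 := hsΔ v
    omega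
  · intro u v huv _
    have h1 := hLE u v huv.1
    have h2 : dg (G \ H) u ≤ Δ := (dg_mono sdiff_le u).trans (hΔ u)
    have h3 := hFs v
    refine ⟨by omega, ?_⟩
    rintro (h | h)
    · have := hcovG u h
      omega
    · have := hcovF v h
      omega

/-- All graphs. -/
theorem all {V : Type} [Fintype V] (G H : SimpleGraph V) (Δ : ℕ)
    (hΔ : ∀ v, dg G v ≤ Δ) (hHG : H ≤ G)
    (hmatch : ∀ u v w, H.Adj u v → H.Adj u w → v = w)
    (hind : ∀ u v, G.Adj u v → (∃ x, H.Adj u x) → (∃ y, H.Adj v y) → H.Adj u v)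
    (LV : V → Finset ℕ) (LE : Sym2 V → Finset ℕ) (hLV : ∀ v, Δ < (LV v).card)
    (hLE : ∀ u v, G.Adj u v → Δ + (Δ + 1) / 2 + 2 ≤ (LE s(u, v)).card)
    (f0 : V → ℕ) (g0 : Sym2 V → ℕ) (h0 : IsTot H f0 g0) :
    ∃ (f : V → ℕ) (g : Sym2 V → ℕ), IsTot G f g ∧
      (∀ u v, H.Adj u v → f u = f0 u ∧ g s(u, v) = g0 s(u, v)) ∧
      (∀ v, (∀ w, ¬ H.Adj v w) → f v ∈ LV v) ∧
      ∀ u v, G.Adj u v → ¬ H.Adj u v → g s(u, v) ∈ LE s(u, v) := by
  classical
  obtain ⟨X, hX⟩ := maxcut (G \ H)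
  let B : SimpleGraph V :=
    { Adj := fun u v => (G \ H).Adj u v ∧ X u ≠ X v
      symm := ⟨fun u v h => ⟨h.1.symm, h.2.symm⟩⟩
      loopless := ⟨fun u h => h.2 rfl⟩ }
  refine near G H B (fun v => X v = true) Δ ((Δ + 1) / 2) hΔ hHG hmatch hind
    (fun u v h => h.1) ?_ ?_ LV LE hLV hLE f0 g0 h0
  · intro u v h
    have h2 := h.2
    cases hu : X u <;> cases hv : X v <;> simp_all
  · intro v
    have h1 : dg ((G \ H) \ B) v ≤ dg (G \ H) v / 2 := by
      have h2 : 2 * (univ.filter (fun w => (G \ H).Adj v w ∧ X v = X w)).card ≤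
          (univ.filter (fun w => (G \ H).Adj v w)).card := by
        convert hX v
      have h3 : dg ((G \ H) \ B) v ≤ (univ.filter (fun w => (G \ H).Adj v w ∧ X v = X w)).card := by
        rw [dg_eq]
        refine card_le_card ?_
        intro w hw
        simp only [mem_filter, mem_univ, true_and] at hw ⊢
        refine ⟨hw.1, ?_⟩
        by_contra hne
        exact hw.2 ⟨hw.1, hne⟩
      have h4 : dg (G \ H) v = (univ.filter (fun w => (G \ H).Adj v w)).card := dg_eq _ _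
      omega
    by_cases hv : ∃ x, H.Adj v x
    · obtain ⟨x, hx⟩ := hv
      have h2 : dg (G \ H) v < dg G v := dg_lt sdiff_le (v := x) (hHG hx) (fun h => h.2 hx)
      have h3 : dg (G \ B) v ≤ dg ((G \ H) \ B) v + 1 := by
        rw [dg_eq, dg_eq, ← card_singleton x]
        refine (card_le_card ?_).trans (card_union_le _ _)
        intro w hw
        simp only [mem_filter, mem_univ, true_and, mem_union, mem_singleton] at hw ⊢
        by_cases hw' : H.Adj v w
        · right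
          exact hmatch v w x hw' hx
        · left
          exact ⟨⟨hw.1, hw'⟩, hw.2⟩
      have := hΔ v
      omega
    · have h3 : dg (G \ B) v ≤ dg ((G \ H) \ B) v := by
        rw [dg_eq, dg_eq]
        refine card_le_card ?_
        intro w hw
        simp only [mem_filter, mem_univ, true_and] at hw ⊢
        exact ⟨⟨hw.1, fun h => hv ⟨w, h⟩⟩, hw.2⟩
      have h4 : dg (G \ H) v ≤ dg G v := dg_mono sdiff_le v
      have := hΔ v
      omega

end Pool.Agent.H136TC
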