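import Pool.Agent.H136TC.Main

/-!
# Bipartite graphs plus a matching: exactly `Δ + 2` colours
-/

set_option autoImplicit false

namespace Pool.Agent.H136TC

open Finset Pool.Agent.TH559.LE Pool.Agent.R61.TotExt Pool.Agent.H439.TB

open Classical in
/-- `F` and `H` form a matching that covers all vertices of degree `Δ`, and the other edges form a
bipartite graph; natural numbers less than `Δ + 2` as colours. -/
theorem plus {V : Type} [Fintype V] (G H F : SimpleGraph V) (X : V → Prop) (Δ : ℕ)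
    (hΔ : ∀ v, dg G v ≤ Δ) (hHG : H ≤ G)
    (hind : ∀ u v, G.Adj u v → (∃ x, H.Adj u x) → (∃ y, H.Adj v y) → H.Adj u v)
    (hone : ∀ x u u' w w', G.Adj x u → H.Adj u u' → G.Adj x w → H.Adj w w' →
      s(u, u') = s(w, w'))
    (hF : F ≤ G \ H)
    (hM : ∀ u v w, (F.Adj u v ∨ H.Adj u v) → (F.Adj u w ∨ H.Adj u w) → v = w)
    (hX : ∀ u v, (G \ H).Adj u v → ¬ F.Adj u v → (X u ↔ ¬ X v))
    (hcov : ∀ v, dg G v = Δ → ∃ w, F.Adj v w ∨ H.Adj v w)
    (hC : ∀ x y, G.Adj x y → (∃ a, F.Adj x a) → (∃ b, F.Adj y b) →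
      (∃ u u', G.Adj x u ∧ H.Adj u u') → (∃ w w', G.Adj y w ∧ H.Adj w w') →
      ¬ F.Adj x y ∧ ∀ u u', G.Adj x u → H.Adj u u' → dg G u ≠ Δ)
    (f0 : V → ℕ) (g0 : Sym2 V → ℕ) (h0 : IsTot H f0 g0)
    (hg0 : ∀ u v, H.Adj u v → g0 s(u, v) < Δ + 2) :
    ∃ (f : V → ℕ) (g : Sym2 V → ℕ), IsTot G f g ∧
      (∀ u v, H.Adj u v → f u = f0 u ∧ g s(u, v) = g0 s(u, v)) ∧
      (∀ v, (∀ w, ¬ H.Adj v w) → f v < Δ + 2) ∧
      ∀ u v, G.Adj u v → ¬ H.Adj u v → g s(u, v) ∈ range (Δ + 2) := by
  have hmatch : ∀ u v w, H.Adj u v → H.Adj u w → v = w :=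
    fun u v w h h' => hM u v w (Or.inr h) (Or.inr h')
  -- an end of an edge of `F` is not on an edge of `H`
  have hFH : ∀ u v, F.Adj u v → ¬ ∃ x, H.Adj u x := by
    rintro u v huv ⟨x, hx⟩
    have h1 := hM u v x (Or.inl huv) (Or.inr hx)
    subst h1
    exact (hF huv).2 hx
  set D : V → Prop := fun v => ∃ x, H.Adj v x with hD
  set D' : V → Prop := fun v => (∃ x, H.Adj v x) ∧ dg G v ≠ Δ with hD'
  set B : SimpleGraph V := (G \ H) \ F with hB
  have hBG : B ≤ G := sdiff_le.trans sdiff_le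
  have hdB : ∀ v, dg B v ≤ Δ - 1 := by
    intro v
    by_cases hv : dg G v = Δ
    · obtain ⟨w, hw⟩ := hcov v hv
      have h1 : dg B v < dg G v := by
        rcases hw with hw | hw
        · exact dg_lt hBG (v := w) (hF hw).1 (fun h => h.2 hw)
        · exact dg_lt hBG (v := w) (hHG hw) (fun h => h.1.2 hw)
      omega
    · have h1 := hΔ v
      have h2 : dg B v ≤ dg G v := dg_mono hBG v
      omega
  have hdBD : ∀ v, D' v → dg B v ≤ Δ - 2 := by
    rintro v ⟨⟨x, hx⟩, h3⟩
    have h1 : dg B v < dg G v := dg_lt hBG (v := x) (hHG hx) (fun h => h.1.2 hx)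
    have h2 := hΔ v
    omega
  obtain ⟨FA, FB, hFA, hFB, hAm, hBm, hAD, hBD, hAB, hcov2⟩ : ∃ FA FB : SimpleGraph V,
      FA ≤ B ∧ FB ≤ B ∧
      (∀ u v w, FA.Adj u v → FA.Adj u w → v = w) ∧ (∀ u v w, FB.Adj u v → FB.Adj u w → v = w) ∧
      (∀ x w, X x → FA.Adj x w → ¬ D' x) ∧
      (∀ y w, ¬ X y → FB.Adj y w → ¬ D' y) ∧
      (∀ x y, X x → B.Adj x y → (∀ w, ¬ FA.Adj x w) ∨ (∀ w, ¬ FB.Adj y w)) ∧
      (∀ v, ¬ D' v → dg B v = Δ - 1 → 0 < Δ - 1 → (∃ w, FA.Adj v w) ∨ (∃ w, FB.Adj v w)) := by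
    rcases Nat.eq_zero_or_pos (Δ - 1) with h0' | hpos
    · exact ⟨⊥, ⊥, bot_le, bot_le, fun u v w h => absurd h (by simp),
        fun u v w h => absurd h (by simp), fun x w _ h => absurd h (by simp),
        fun x w _ h => absurd h (by simp), fun x y _ _ => Or.inl (fun w h => absurd h (by simp)),
        fun v _ _ h => absurd h (by omega)⟩
    · obtain ⟨FA, FB, h1, h2, h3, h4, h5, h6, h7, h8⟩ := two B X
        (fun u v huv => hX u v huv.1 huv.2) (Δ - 1) hpos hdB D'
      exact ⟨FA, FB, h1, h2, h3, h4, fun x w hx h => (h5 x w hx h).1,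
        fun x w hx h => (h6 x w hx h).1, h7, fun v hv h _ => h8 v hv h⟩
  set bad : V → Prop := fun v => (∃ a, F.Adj v a) ∧ (∃ u u', G.Adj v u ∧ H.Adj u u' ∧
    g0 s(u, u') ≠ 0) ∧ (((X v ∧ ∃ t, FA.Adj v t) ∨ (¬ X v ∧ ∃ t, FB.Adj v t)) ∨
    ∃ u u', G.Adj v u ∧ H.Adj u u' ∧ dg G u = Δ) with hbad
  have hcc : ∀ v, ∃ b : ℕ, bad v → ∀ u u', G.Adj v u → H.Adj u u' → b = g0 s(u, u') := by
    intro v
    by_cases hv : bad v
    · obtain ⟨_, ⟨u, u', hvu, huu, _⟩, _⟩ := hv
      exact ⟨g0 s(u, u'), fun _ w w' hvw hww => by rw [hone v u u' w w' hvu huu hvw hww]⟩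
    · exact ⟨0, fun h => absurd h hv⟩
  choose cc hcc using hcc
  have hbadcc : ∀ v, bad v → cc v ≠ 0 ∧ cc v < Δ + 2 := by
    intro v hv
    obtain ⟨h1, ⟨u, u', hvu, huu, h2⟩, _⟩ := id hv
    rw [hcc v hv u u' hvu huu]
    exact ⟨h2, hg0 u u' huu⟩
  have hbD : ∀ v, bad v → ¬ D v := fun v hv => by
    obtain ⟨⟨a, ha⟩, _⟩ := hv
    exact hFH v a ha
  set f1 : V → ℕ := fun v => if D v then f0 v else cc v with hf1
  have hf1D : ∀ v, D v → f1 v = f0 v := fun v hv => by simp only [hf1]; rw [if_pos hv]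
  have hf1N : ∀ v, ¬ D v → f1 v = cc v := fun v hv => by simp only [hf1]; rw [if_neg hv]
  have hDb : ∀ u v, G.Adj u v → D u → bad v → f1 u ≠ f1 v := by
    rintro u v huv ⟨x, hx⟩ hv
    rw [hf1D u ⟨x, hx⟩, hf1N v (hbD v hv), hcc v hv u x huv.symm hx]
    exact (h0.2.2 u x hx).symm
  have hprop : ∀ u v, (D u ∨ bad u) → (D v ∨ bad v) → G.Adj u v → f1 u ≠ f1 v := by
    intro u v hu hv huv
    rcases hu with hu | hu
    · rcases hv with hv | hv
      · rw [hf1D u hu, hf1D v hv]
        exact h0.1 u v (hind u v huv hu hv)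
      · exact hDb u v huv hu hv
    · rcases hv with hv | hv
      · exact (hDb v u huv.symm hv hu).symm
      · exfalso
        have hDu := hbD u hu
        obtain ⟨h1, ⟨a, a', h2, h3, _⟩, h7⟩ := hu
        obtain ⟨h4, ⟨b, b', h5, h6, _⟩, h8⟩ := hv
        obtain ⟨hf, hu1⟩ := hC u v huv h1 h4 ⟨a, a', h2, h3⟩ ⟨b, b', h5, h6⟩
        have hv1 := (hC v u huv.symm h4 h1 ⟨b, b', h5, h6⟩ ⟨a, a', h2, h3⟩).2
        replace h7 := h7.resolve_right (fun ⟨w, w', k1, k2, k3⟩ => hu1 w w' k1 k2 k3)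
        replace h8 := h8.resolve_right (fun ⟨w, w', k1, k2, k3⟩ => hv1 w w' k1 k2 k3)
        · have hbuv : B.Adj u v := ⟨⟨huv, fun h => hDu ⟨v, h⟩⟩, hf⟩
          have hX' := hX u v hbuv.1 hf
          rcases h7 with ⟨k1, t, ht⟩ | ⟨k1, t, ht⟩
          · rcases h8 with ⟨k2, t', ht'⟩ | ⟨k2, t', ht'⟩
            · exact hX'.1 k1 k2
            · rcases hAB u v k1 hbuv with h | h
              · exact h t ht
              · exact h t' ht'
          · rcases h8 with ⟨k2, t', ht'⟩ | ⟨k2, t', ht'⟩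
            · rcases hAB v u k2 hbuv.symm with h | h
              · exact h t' ht'
              · exact h t ht
            · exact k1 (hX'.2 k2)
  have hcard : ((range (Δ + 2)).erase 0).card = Δ + 1 := by
    rw [card_erase_of_mem (by simp), card_range]
    omega
  obtain ⟨f, hfD, hfL, hfG⟩ := vextL G (fun _ => (range (Δ + 2)).erase 0) f1
    (fun v => D v ∨ bad v) hprop (fun v => by have := hΔ v; rw [hcard]; omega)
  have hff0 : ∀ v, D v → f v = f0 v := fun v hv => by rw [hfD v (Or.inl hv), hf1D v hv]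
  have hffb : ∀ v, bad v → f v = cc v := fun v hv => by
    rw [hfD v (Or.inr hv), hf1N v (hbD v hv)]
  have hfN : ∀ v, ¬ D v → f v ≠ 0 ∧ f v < Δ + 2 := by
    intro v hv
    by_cases hb : bad v
    · rw [hffb v hb]
      exact hbadcc v hb
    · have h1 := hfL v (by rintro (h | h); exacts [hv h, hb h])
      rw [mem_erase, mem_range] at h1
      exact h1
  obtain ⟨g, hg1, hg2, hg3⟩ := coreL G H hmatch (fun _ => range (Δ + 2)) f0 g0 h0 f hff0 hfG (by
    intro L hL
    set cF : V → Prop := fun v => ∃ a, F.Adj v a with hcF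
    set L' : Sym2 V → Finset ℕ := fun z => (L z).filter (fun γ => (∃ v ∈ z, cF v) → γ ≠ 0) with hL'
    have hL'm : ∀ u v γ, γ ∈ L' s(u, v) ↔ γ ∈ L s(u, v) ∧ ((cF u ∨ cF v) → γ ≠ 0) := by
      intro u v γ
      simp only [hL', mem_filter, Sym2.mem_iff]
      constructor
      · rintro ⟨h1, h2⟩
        refine ⟨h1, ?_⟩
        rintro (h | h)
        · exact h2 ⟨u, Or.inl rfl, h⟩
        · exact h2 ⟨v, Or.inr rfl, h⟩
      · rintro ⟨h1, h2⟩
        refine ⟨h1, ?_⟩
        rintro ⟨w, rfl | rfl, hw⟩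
        · exact h2 (Or.inl hw)
        · exact h2 (Or.inr hw)
    have hsize : ∀ (a b c : ℕ) (T : Finset ℕ), range (Δ + 2) \ {a, b, c} ⊆ T → Δ ≤ T.card + 1 := by
      intro a b c T hT
      have h2 := card_le_card hT
      have h3 := Finset.card_le_card_sdiff_add_card (s := range (Δ + 2)) (t := {a, b, c})
      have h4 : ({a, b, c} : Finset ℕ).card ≤ 3 := card_le_three
      rw [card_range] at h3
      omega
    have hsize4 : ∀ (a b c d : ℕ) (T : Finset ℕ), range (Δ + 2) \ {a, b, c, d} ⊆ T →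
        Δ ≤ T.card + 2 := by
      intro a b c d T hT
      have h2 := card_le_card hT
      have h3 := Finset.card_le_card_sdiff_add_card (s := range (Δ + 2)) (t := {a, b, c, d})
      have h4 : ({a, b, c, d} : Finset ℕ).card ≤ 4 := card_le_four
      rw [card_range] at h3
      omega
    -- one covered end `v`
    have hc1 : ∀ u v, B.Adj u v → D v → Δ ≤ (L' s(u, v)).card + 1 ∨
        (Δ ≤ (L' s(u, v)).card + 2 ∧ (X u → ∀ t, ¬ FA.Adj u t) ∧ (¬ X u → ∀ t, ¬ FB.Adj u t) ∧
          D' v) := by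
      rintro u v huv ⟨z, hvz⟩
      have hu : ¬ D u := fun hu => huv.1.2 (hind u v huv.1.1 hu ⟨z, hvz⟩)
      have hvF : ¬ cF v := fun ⟨a, ha⟩ => hFH v a ha ⟨z, hvz⟩
      have hmem : ∀ γ, γ < Δ + 2 → γ ≠ f u → γ ≠ f v → γ ≠ g0 s(v, z) → (cF u → γ ≠ 0) →
          γ ∈ L' s(u, v) := by
        intro γ h1 h2 h3 h4 h5
        refine (hL'm u v γ).2 ⟨(hL u v huv.1 γ).2 ⟨mem_range.2 h1, h2, h3,
          fun x hx => absurd ⟨x, hx⟩ hu, ?_⟩, ?_⟩
        · intro x hx
          rw [hmatch v x z hx hvz]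
          exact h4
        · rintro (h | h)
          · exact h5 h
          · exact absurd h hvF
      by_cases huF : cF u
      · by_cases hb : bad u
        · left
          -- the colour of `u` is the colour of the edge `vz`
          have h6 : f u = g0 s(v, z) := by rw [hffb u hb, hcc u hb v z huv.1.1 hvz]
          refine hsize (f u) (f v) 0 _ ?_
          intro γ hγ
          simp only [mem_sdiff, mem_insert, mem_singleton, not_or, mem_range] at hγ
          exact hmem γ hγ.1 hγ.2.1 hγ.2.2.1 (by rw [← h6]; exact hγ.2.1) (fun _ => hγ.2.2.2)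
        · by_cases h6 : g0 s(v, z) = 0
          · left
            refine hsize (f u) (f v) 0 _ ?_
            intro γ hγ
            simp only [mem_sdiff, mem_insert, mem_singleton, not_or, mem_range] at hγ
            exact hmem γ hγ.1 hγ.2.1 hγ.2.2.1 (by rw [h6]; exact hγ.2.2.2) (fun _ => hγ.2.2.2)
          · right
            refine ⟨?_, ?_, ?_, ⟨z, hvz⟩, ?_⟩
            · refine hsize4 (f u) (f v) 0 (g0 s(v, z)) _ ?_
              intro γ hγ
              simp only [mem_sdiff, mem_insert, mem_singleton, not_or, mem_range] at hγ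
              exact hmem γ hγ.1 hγ.2.1 hγ.2.2.1 hγ.2.2.2.2 (fun _ => hγ.2.2.2.1)
            · intro hXu t ht
              exact hb ⟨huF, ⟨v, z, huv.1.1, hvz, h6⟩, Or.inl (Or.inl ⟨hXu, t, ht⟩)⟩
            · intro hXu t ht
              exact hb ⟨huF, ⟨v, z, huv.1.1, hvz, h6⟩, Or.inl (Or.inr ⟨hXu, t, ht⟩)⟩
            · intro hd
              exact hb ⟨huF, ⟨v, z, huv.1.1, hvz, h6⟩, Or.inr ⟨v, z, huv.1.1, hvz, hd⟩⟩
      · left
        refine hsize (f u) (f v) (g0 s(v, z)) _ ?_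
        intro γ hγ
        simp only [mem_sdiff, mem_insert, mem_singleton, not_or, mem_range] at hγ
        exact hmem γ hγ.1 hγ.2.1 hγ.2.2.1 hγ.2.2.2 (fun h => absurd h huF)
    obtain ⟨c', hc'⟩ : ∃ c', Ok B L' c' := by
      rcases Nat.eq_zero_or_pos (Δ - 1) with h0' | hpos
      · have hno : ∀ u v, ¬ B.Adj u v := by
          intro u v huv
          have h1 := hdB u
          have h2 : 0 < dg B u := by
            rw [dg_eq]
            exact card_pos.2 ⟨v, by simpa using huv⟩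
          omega
        exact ⟨fun _ => 0, fun u v h => absurd h (hno u v), fun u v w h => absurd h (hno u v)⟩
      · refine list_two B B FA FB le_rfl hAm hBm X (fun u v huv => hX u v huv.1 huv.2) hAB
          (Δ - 2) ?_ L' ?_
        · intro v
          have hle : (B \ FA) \ FB ≤ B := sdiff_le.trans sdiff_le
          have h2 : dg ((B \ FA) \ FB) v ≤ dg B v := dg_mono hle v
          by_cases hDv : D' v
          · have := hdBD v hDv
            omega
          · by_cases hv : dg B v = Δ - 1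
            · have hlt : dg ((B \ FA) \ FB) v < dg B v := by
                rcases hcov2 v hDv hv hpos with ⟨w, hw⟩ | ⟨w, hw⟩
                · exact dg_lt hle (hFA hw) (fun h => h.1.2 hw)
                · exact dg_lt hle (hFB hw) (fun h => h.2 hw)
              omega
            · have := hdB v
              omega
        · intro x y hXx hxy
          have hyX : ¬ X y := (hX x y hxy.1 hxy.2).1 hXx
          by_cases hDy : D y
          · rcases hc1 x y hxy hDy with h | ⟨h, h', _, hy'⟩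
            · left
              omega
            · right
              exact ⟨by omega, h' hXx, fun w hw => hBD y w hyX hw hy'⟩
          · by_cases hDx : D x
            · rcases hc1 y x hxy.symm hDx with h | ⟨h, _, h', hx'⟩
              · left
                rw [Sym2.eq_swap]
                omega
              · right
                rw [Sym2.eq_swap]
                exact ⟨by omega, fun w hw => hAD x w hXx hw hx', h' hyX⟩
            · left
              have : Δ ≤ (L' s(x, y)).card + 1 := by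
                refine hsize (f x) (f y) 0 _ ?_
                intro γ hγ
                simp only [mem_sdiff, mem_insert, mem_singleton, not_or, mem_range] at hγ
                exact (hL'm x y γ).2 ⟨(hL x y hxy.1 γ).2 ⟨mem_range.2 hγ.1, hγ.2.1, hγ.2.2.1,
                  fun z hz => absurd ⟨z, hz⟩ hDx, fun z hz => absurd ⟨z, hz⟩ hDy⟩,
                  fun _ => hγ.2.2.2⟩
              omega
    set c : Sym2 V → ℕ := fun z => if z ∈ F.edgeSet then 0 else c' z with hcdef
    have hcF' : ∀ u v, F.Adj u v → c s(u, v) = 0 := fun u v h => by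
      simp only [hcdef]
      rw [if_pos (by simpa using h)]
    have hcB' : ∀ u v, ¬ F.Adj u v → c s(u, v) = c' s(u, v) := fun u v h => by
      simp only [hcdef]
      rw [if_neg (by simpa using h)]
    refine ⟨c, ?_, ?_⟩
    · intro u v huv
      by_cases hf : F.Adj u v
      · rw [hcF' u v hf]
        have hu := hFH u v hf
        have hv := hFH v u hf.symm
        exact (hL u v huv 0).2 ⟨by simp, (hfN u hu).1.symm, (hfN v hv).1.symm,
          fun x hx => absurd ⟨x, hx⟩ hu, fun x hx => absurd ⟨x, hx⟩ hv⟩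
      · rw [hcB' u v hf]
        exact ((hL'm u v _).1 (hc'.1 u v ⟨huv, hf⟩)).1
    · intro u v w huv huw hne
      by_cases hfv : F.Adj u v
      · by_cases hfw : F.Adj u w
        · exact absurd (hM u v w (Or.inl hfv) (Or.inl hfw)) hne
        · rw [hcF' u v hfv, hcB' u w hfw]
          exact (((hL'm u w _).1 (hc'.1 u w ⟨huw, hfw⟩)).2 (Or.inl ⟨v, hfv⟩)).symm
      · by_cases hfw : F.Adj u w
        · rw [hcF' u w hfw, hcB' u v hfv]
          exact ((hL'm u v _).1 (hc'.1 u v ⟨huv, hfv⟩)).2 (Or.inl ⟨w, hfw⟩)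
        · rw [hcB' u v hfv, hcB' u w hfw]
          exact hc'.2 u v w ⟨huv, hfv⟩ ⟨huw, hfw⟩ hne)
  exact ⟨f, g, hg1, fun u v huv => ⟨hff0 u ⟨v, huv⟩, hg2 u v huv⟩,
    fun v hv => (hfN v (fun ⟨x, hx⟩ => hv x hx)).2, hg3⟩

end Pool.Agent.H136TC
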